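import Pool.Agent.Lib_helper91.Coh.Formula2

/-!
# MP_997ec4_ag: closed formulas for the stability intervals, all degrees `d ≥ (n - 1) (n - 2)`
-/

namespace Pool.Agent.Results.MP_997ec4_ag.ClosedFormulas

open CohP1

/-- Closed formulas for the sets `I(n,d,k)` of the `α > 0` for which an `α`-stable coherent system
of type `(n,d,k)` on `ℙ¹` exists.

* For all `n ≥ 2`, `k ≥ 1` and all `d ≥ (n - 1) (n - 2)` (and for `d < 0`, and for all `d` if
  `n ≤ 3`), `I(n,d,k)` is `closedForm n d k`, except for the types `(2,2,2)`, `(3,3,3)`,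
  `(4,6,2)`, for which it is empty.
* For `n = 1`, `I(1,d,k)` is `(0,∞)` if `k ≤ d + 1` and empty otherwise.
* The bound is optimal: for every `n ≥ 4` the closed formula fails for
  `d = k = (n - 1) (n - 2) - 1`. -/
theorem result :
    (∀ (n k : ℕ) (d : ℤ), 2 ≤ n → 1 ≤ k →
      (((n : ℤ) - 1) * (n - 2) ≤ d ∨ d < 0 ∨ n ≤ 3) →
      (n, d, k) ≠ (2, 2, 2) → (n, d, k) ≠ (3, 3, 3) → (n, d, k) ≠ (4, 6, 2) →
      stabilityInterval n d k = closedForm n d k) ∧
    (stabilityInterval 2 2 2 = ∅ ∧ stabilityInterval 3 3 3 = ∅ ∧ stabilityInterval 4 6 2 = ∅) ∧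
    (∀ (k : ℕ) (d : ℤ), 1 ≤ k →
      stabilityInterval 1 d k = if (k : ℤ) ≤ d + 1 then Set.Ioi 0 else ∅) ∧
    (∀ n : ℕ, 4 ≤ n →
      stabilityInterval n (((n - 1) * (n - 2) - 1 : ℕ) : ℤ) ((n - 1) * (n - 2) - 1) ≠
        closedForm n (((n - 1) * (n - 2) - 1 : ℕ) : ℤ) ((n - 1) * (n - 2) - 1)) := by
  refine ⟨?_, Closed.exceptions, fun k d hk => Closed.rank_one_interval hk d, ?_⟩
  · intro n k d hn hk hd h1 h2 h3
    exact Closed.closed_main hn hk (by tauto) h1 h2 h3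
  · intro n hn
    obtain ⟨s, rfl⟩ : ∃ s, n = s + 4 := ⟨n - 4, by omega⟩
    have h : (s + 4 - 1) * (s + 4 - 2) - 1 = s ^ 2 + 5 * s + 5 := by
      have h1 : s + 4 - 1 = s + 3 := by omega
      have h2 : s + 4 - 2 = s + 2 := by omega
      rw [h1, h2]
      have h3 : (s + 3) * (s + 2) = s ^ 2 + 5 * s + 5 + 1 := by ring
      rw [h3]
      rfl
    rw [h]
    exact Closed.sharp s

end Pool.Agent.Results.MP_997ec4_ag.ClosedFormulas
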