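import Pool.Agent.Lib_helper87.Coh.Final2

/-!
# MP_997ec4_ag: the stability intervals of coherent systems on the projective line
-/

namespace Pool.Agent.Results.MP_997ec4_ag.StabilityEndpoints

/-- For all `n, k ≥ 1` and all `d`, the set `I(n,d,k)` of the `α > 0` for which an `α`-stable
coherent system of type `(n,d,k)` on `ℙ¹` exists is the open interval whose end points
`(α_m, α_M) = ends n d k` are given by a finite recursion over smaller exceptional types; it is
nonempty if and only if `d ≥ 0` and `α_m < α_M`. -/
theorem result (n k : ℕ) (d : ℤ) (hn : 1 ≤ n) (hk : 1 ≤ k) :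
    CohP1.stabilityInterval n d k =
      {α : ℝ | 0 ≤ d ∧ (CohP1.ends n d.toNat k).1 < α ∧ α < (CohP1.ends n d.toNat k).2} ∧
    ((CohP1.stabilityInterval n d k).Nonempty ↔
      0 ≤ d ∧ (CohP1.ends n d.toNat k).1 < (CohP1.ends n d.toNat k).2) := by
  refine ⟨?_, CohP1.stabilityInterval_nonempty_iff hn hk⟩
  ext α
  exact CohP1.mem_stabilityInterval_iff_ends hn hk

end Pool.Agent.Results.MP_997ec4_ag.StabilityEndpoints
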